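import Pool.Agent.Helper76.PR.E11Ca

/-!
# E11C, second part (MP_339e9c_an)

`re_zero` and `special_of_test`.
-/

set_option autoImplicit false

namespace PR

open ContinuousLinearMap InnerProductSpace Complex

open scoped ComplexConjugate

section e11c

variable {H : Type*} [NormedAddCommGroup H] [InnerProductSpace ℂ H] [CompleteSpace H]

theorem re_zero {T : H →L[ℂ] H} (hT : T * adjoint T = adjoint T * T) {l : Fin 3 → ℂ}
    (hinj : Function.Injective l) (hl : ∀ j, l j ∈ spectrum ℂ T) (him : (l 0).im ≠ 0)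
    (h : ∀ S, sr (skb (adjoint T) S) = sr (skb T S)) :
    ((l 0 - conj (l 1)) * (l 1 - conj (l 2)) * (l 2 - conj (l 0))).re = 0 := by
  set c := (l 0 - conj (l 1)) * (l 1 - conj (l 2)) * (l 2 - conj (l 0)) with hc
  by_cases hc0 : c = 0
  · rw [hc0]; simp
  have hd0 : l 0 - conj (l 0) ≠ 0 := by
    rw [Complex.sub_conj]
    simpa using him
  have hconj : conj c = (conj (l 0) - l 1) * (conj (l 1) - l 2) * (conj (l 2) - l 0) := by
    rw [hc]; simp
  have h1 := limit_test hT hinj hl h
    (fun j k => !![1 / (l 0 - conj (l 0)), 1 / c, 0; 0, 0, 1; 1, 0, 0] j k)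
  have hR := sr_m3 1 (1 / c * (l 0 - conj (l 1))) (l 1 - conj (l 2)) (l 2 - conj (l 0))
    (m := fun j k => !![1 / (l 0 - conj (l 0)), 1 / c, 0; 0, 0, 1; 1, 0, 0] j k *
      (l j - conj (l k))) (by
      ext j k
      fin_cases j <;> fin_cases k <;> simp [hd0])
  have hL := sr_m3 (-1) (1 / c * (conj (l 0) - l 1)) (conj (l 1) - l 2) (conj (l 2) - l 0)
    (m := fun j k => !![1 / (l 0 - conj (l 0)), 1 / c, 0; 0, 0, 1; 1, 0, 0] j k *
      (conj (l j) - l k)) (by
      ext j k
      fin_cases j <;> fin_cases k <;> simp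
      field_simp
      ring)
  have eR : 1 / c * (l 0 - conj (l 1)) * (l 1 - conj (l 2)) * (l 2 - conj (l 0)) = 1 := by
    have : 1 / c * (l 0 - conj (l 1)) * (l 1 - conj (l 2)) * (l 2 - conj (l 0)) = 1 / c * c := by
      rw [hc]; ring
    rw [this, one_div, inv_mul_cancel₀ hc0]
  have eL : 1 / c * (conj (l 0) - l 1) * (conj (l 1) - l 2) * (conj (l 2) - l 0) = conj c / c := by
    rw [hconj]; ring
  rw [eR] at hR
  rw [eL] at hL
  rw [← h1] at hR
  have hw : ‖-(conj c / c)‖ = 1 := by
    rw [norm_neg, norm_div, Complex.norm_conj, div_self (norm_ne_zero_iff.2 hc0)]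
  have h2 : -(conj c / c) = 1 := by
    refine cubic_rigid hw hR ?_
    obtain ⟨z, hz, ez⟩ := hL.1
    refine ⟨-z, by rw [norm_neg, hz], ?_⟩
    linear_combination (-1 : ℂ) * ez
  have h3 : conj c = -c := by
    field_simp at h2
    linear_combination (-1 : ℂ) * h2
  have h4 := congrArg Complex.re h3
  simp only [Complex.conj_re, Complex.neg_re] at h4
  linarith

theorem special_of_test {T : H →L[ℂ] H} (hT : T * adjoint T = adjoint T * T)
    (h : ∀ S, sr (skb (adjoint T) S) = sr (skb T S)) : adjoint T = T ∨ Special T := by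
  by_cases hreal : ∀ z ∈ spectrum ℂ T, z.im = 0
  · left
    have := c_normal_identity hT 0 (-1) 1 0 (fun z hz => by
      have : conj z = z := Complex.conj_eq_iff_im.2 (hreal z hz)
      rw [this]; ring)
    simp only [zero_smul, zero_add, add_zero, one_smul, neg_smul] at this
    rw [neg_add_eq_zero] at this
    exact this.symm
  right
  push Not at hreal
  obtain ⟨l0, hl0, him⟩ := hreal
  -- three points
  have hdet : ∀ l1 ∈ spectrum ℂ T, ∀ l2 ∈ spectrum ℂ T,
      ‖l0‖ ^ 2 * (l1.re - l2.re) + ‖l1‖ ^ 2 * (l2.re - l0.re) + ‖l2‖ ^ 2 * (l0.re - l1.re) = 0 := by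
    intro l1 hl1 l2 hl2
    by_cases h01 : l0 = l1
    · subst h01; ring
    by_cases h02 : l0 = l2
    · subst h02; ring
    by_cases h12 : l1 = l2
    · subst h12; ring
    have hinj : Function.Injective ![l0, l1, l2] := by
      intro i j hij
      fin_cases i <;> fin_cases j <;> simp_all
    have := re_zero hT (l := ![l0, l1, l2]) hinj (by
      intro j; fin_cases j <;> simpa) (by simpa using him) h
    simp only [Matrix.cons_val_zero, Matrix.cons_val_one, Matrix.cons_val] at this
    rw [← Complex.normSq_eq_norm_sq, ← Complex.normSq_eq_norm_sq, ← Complex.normSq_eq_norm_sq,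
      Complex.normSq_apply, Complex.normSq_apply, Complex.normSq_apply]
    simp only [Complex.mul_re, Complex.mul_im, Complex.sub_re, Complex.sub_im, Complex.conj_re,
      Complex.conj_im] at this
    linear_combination (-1 : ℝ) * this
  have hq : ∀ z : ℂ, (((‖z‖ ^ 2 : ℝ)) : ℂ) = conj z * z := by
    intro z
    rw [← Complex.normSq_eq_norm_sq, Complex.normSq_eq_conj_mul_self]
  have hre : ∀ z : ℂ, ((z.re : ℝ) : ℂ) = (z + conj z) / 2 := by
    intro z
    rw [Complex.re_eq_add_conj]
  -- reduction to a real relation on the spectrum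
  suffices hs : ∃ a b c : ℝ, (a, b, c) ≠ (0, 0, 0) ∧
      ∀ z ∈ spectrum ℂ T, a + 2 * b * z.re + c * ‖z‖ ^ 2 = 0 by
    obtain ⟨a, b, c, hne, hrel⟩ := hs
    refine ⟨hT, a, b, c, hne, ?_⟩
    have := c_normal_identity hT a b b c (fun z hz => by
      have h1 : (((a + 2 * b * z.re + c * ‖z‖ ^ 2 : ℝ)) : ℂ) = 0 := by
        rw [hrel z hz]; simp
      push_cast at h1
      have h2 := hq z
      push_cast at h2
      rw [h2, hre z] at h1
      linear_combination h1)
    rw [← this]
    module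
  by_cases hall : ∀ z ∈ spectrum ℂ T, z.re = l0.re
  · refine ⟨-2 * l0.re, 1, 0, by simp, fun z hz => ?_⟩
    rw [hall z hz]; ring
  push Not at hall
  obtain ⟨l1, hl1, hne⟩ := hall
  refine ⟨2 * (l0.re * ‖l1‖ ^ 2 - l1.re * ‖l0‖ ^ 2), ‖l0‖ ^ 2 - ‖l1‖ ^ 2, 2 * (l1.re - l0.re), ?_, ?_⟩
  · intro h0
    simp only [Prod.mk.injEq] at h0
    apply hne
    linarith [h0.2.2]
  · intro z hz
    have := hdet l1 hl1 z hz
    linear_combination (-2 : ℝ) * this

end e11c

end PR
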