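import Pool.Agent.Helper31.PR.E11B

/-!
# E11C, first part (MP_339e9c_an)

The spectral radius of the matrices `[[d,a,0],[0,0,b],[c,0,0]]`, rigidity of the cubic
`z ^ 2 * (z - 1) = w`, and a functional calculus identity for normal operators.
-/

set_option autoImplicit false

namespace PR

open ContinuousLinearMap InnerProductSpace Complex

open scoped ComplexConjugate

section e11c

/-! ### `m3` -/

theorem c_m3_apply (m : Fin 3 → Fin 3 → ℂ) (z : EuclideanSpace ℂ (Fin 3)) (j : Fin 3) :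
    m3 m z j = ∑ k, m j k * z k := by
  unfold m3
  simp only [_root_.sum_apply, _root_.smul_apply, po_apply,
    EuclideanSpace.inner_single_left, map_one, one_mul]
  rw [WithLp.ofLp_sum, Finset.sum_apply]
  rw [Finset.sum_eq_single j]
  · rw [WithLp.ofLp_sum, Finset.sum_apply]
    refine Finset.sum_congr rfl fun k _ => ?_
    simp
  · intro b _ hb
    rw [WithLp.ofLp_sum, Finset.sum_apply]
    refine Finset.sum_eq_zero fun k _ => ?_
    simp [Ne.symm hb]
  · simp

theorem c_sr_mem_le {H : Type*} [NormedAddCommGroup H] [NormedSpace ℂ H] [CompleteSpace H]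
    {T : H →L[ℂ] H} {z : ℂ} (hz : z ∈ spectrum ℂ T) : ‖z‖ ≤ sr T := by
  unfold sr
  have h1 : (‖z‖₊ : ENNReal) ≤ spectralRadius ℂ T := by
    unfold spectralRadius
    exact le_iSup₂ (f := fun (k : ℂ) (_ : k ∈ spectrum ℂ T) => (‖k‖₊ : ENNReal)) z hz
  have h2 : spectralRadius ℂ T ≠ ⊤ := by
    have h4 : spectralRadius ℂ T ≤ ((‖T‖₊ * ‖(1 : H →L[ℂ] H)‖₊ : NNReal) : ENNReal) := by
      unfold spectralRadius
      refine iSup₂_le fun k hk => ?_
      exact_mod_cast spectrum.norm_le_norm_mul_of_mem hk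
    exact ne_of_lt (lt_of_le_of_lt h4 ENNReal.coe_lt_top)
  have h3 := ENNReal.toReal_mono h2 h1
  simpa using h3

theorem c_sr_exists {H : Type*} [NormedAddCommGroup H] [NormedSpace ℂ H] [CompleteSpace H]
    [Nontrivial H] (T : H →L[ℂ] H) : ∃ z ∈ spectrum ℂ T, ‖z‖ = sr T := by
  obtain ⟨k, hk, h⟩ := spectrum.exists_nnnorm_eq_spectralRadius T
  refine ⟨k, hk, ?_⟩
  unfold sr
  rw [← h]
  simp

theorem c_m3_mem_spectrum (d a b c z : ℂ) {m : Fin 3 → Fin 3 → ℂ}
    (hm : m = fun j k => !![d, a, 0; 0, 0, b; c, 0, 0] j k) :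
    z ∈ spectrum ℂ (m3 m) ↔ z ^ 2 * (z - d) = a * b * c := by
  have hM : ∀ v : EuclideanSpace ℂ (Fin 3), m3 m v 0 = d * v 0 + a * v 1 ∧
      m3 m v 1 = b * v 2 ∧ m3 m v 2 = c * v 0 := by
    intro v
    simp only [c_m3_apply, Fin.sum_univ_three, hm]
    simp
  constructor
  · intro hz
    by_contra hne
    have hp : z ^ 3 - d * z ^ 2 - a * b * c ≠ 0 := fun h => hne (by linear_combination h)
    -- an inverse of `z - M`
    set M := m3 m with hMdef
    have hcube : M * M * M - d • (M * M) = (a * b * c) • (1 : EuclideanSpace ℂ (Fin 3) →L[ℂ] _) := by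
      ext v i
      have e0 := hM v
      have e1 := hM (M v)
      have e2 := hM (M (M v))
      simp only [_root_.sub_apply, mul_apply_eq_comp, _root_.smul_apply,
        one_apply_eq_self, PiLp.sub_apply, PiLp.smul_apply, smul_eq_mul]
      fin_cases i
      · simp only [Fin.zero_eta]
        rw [e2.1, e1.1, e1.2.1, e0.1, e0.2.1, e0.2.2]
        ring
      · simp only [Fin.mk_one]
        rw [e2.2.1, e1.2.1, e1.2.2, e0.2.2, e0.1]
        ring
      · simp only [Fin.reduceFinMk]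
        rw [e2.2.2, e1.2.2, e1.1, e0.1, e0.2.1]
        ring
    rw [spectrum.mem_iff] at hz
    apply hz
    set p : ℂ := z ^ 3 - d * z ^ 2 - a * b * c with hpdef
    set N : EuclideanSpace ℂ (Fin 3) →L[ℂ] EuclideanSpace ℂ (Fin 3) :=
      M * M + (z - d) • M + (z ^ 2 - d * z) • 1 with hN
    have hz1 : algebraMap ℂ (EuclideanSpace ℂ (Fin 3) →L[ℂ] EuclideanSpace ℂ (Fin 3)) z = z • 1 :=
      Algebra.algebraMap_eq_smul_one z
    have hA : (z • (1 : EuclideanSpace ℂ (Fin 3) →L[ℂ] EuclideanSpace ℂ (Fin 3)) - M) * N = p • 1 := by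
      have : (z • (1 : EuclideanSpace ℂ (Fin 3) →L[ℂ] EuclideanSpace ℂ (Fin 3)) - M) * N =
          (z ^ 3 - d * z ^ 2) • 1 - (M * M * M - d • (M * M)) := by
        rw [hN]
        simp only [sub_mul, mul_add, smul_mul_assoc, mul_smul_comm, one_mul, mul_one, smul_add,
          smul_smul, ← mul_assoc]
        module
      rw [this, hcube, hpdef]
      module
    have hB : N * (z • (1 : EuclideanSpace ℂ (Fin 3) →L[ℂ] EuclideanSpace ℂ (Fin 3)) - M) = p • 1 := by
      have : N * (z • (1 : EuclideanSpace ℂ (Fin 3) →L[ℂ] EuclideanSpace ℂ (Fin 3)) - M) =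
          (z ^ 3 - d * z ^ 2) • 1 - (M * M * M - d • (M * M)) := by
        rw [hN]
        simp only [mul_sub, add_mul, smul_mul_assoc, mul_smul_comm, one_mul, mul_one, smul_add,
          smul_smul, ← mul_assoc]
        module
      rw [this, hcube, hpdef]
      module
    rw [hz1]
    refine ⟨⟨z • 1 - M, p⁻¹ • N, ?_, ?_⟩, rfl⟩
    · rw [mul_smul_comm, hA, smul_smul, inv_mul_cancel₀ hp, one_smul]
    · rw [smul_mul_assoc, hB, smul_smul, inv_mul_cancel₀ hp, one_smul]
  · intro hz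
    -- an eigenvector
    have key : ∀ v : EuclideanSpace ℂ (Fin 3), v ≠ 0 → m3 m v = z • v → z ∈ spectrum ℂ (m3 m) := by
      intro v hv hmv
      rw [spectrum.mem_iff]
      rintro ⟨u, hu⟩
      apply hv
      have h1 : (u : EuclideanSpace ℂ (Fin 3) →L[ℂ] EuclideanSpace ℂ (Fin 3)) v = 0 := by
        rw [hu, Algebra.algebraMap_eq_smul_one]
        simp [hmv]
      have h2 : ((u⁻¹ : (EuclideanSpace ℂ (Fin 3) →L[ℂ] EuclideanSpace ℂ (Fin 3))ˣ) :
          EuclideanSpace ℂ (Fin 3) →L[ℂ] EuclideanSpace ℂ (Fin 3)) ((u : EuclideanSpace ℂ (Fin 3) →L[ℂ]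
            EuclideanSpace ℂ (Fin 3)) v) = v := by
        rw [← mul_apply_eq_comp, Units.inv_mul]
        rfl
      rw [← h2, h1, map_zero]
    have key2 : ∀ x0 x1 x2 : ℂ, ¬ (x0 = 0 ∧ x1 = 0 ∧ x2 = 0) → d * x0 + a * x1 = z * x0 →
        b * x2 = z * x1 → c * x0 = z * x2 → z ∈ spectrum ℂ (m3 m) := by
      intro x0 x1 x2 hne h0 h1 h2
      refine key (WithLp.toLp 2 ![x0, x1, x2]) ?_ ?_
      · intro h
        apply hne
        refine ⟨?_, ?_, ?_⟩
        · have := congrFun (congrArg WithLp.ofLp h) 0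
          simpa using this
        · have := congrFun (congrArg WithLp.ofLp h) 1
          simpa using this
        · have := congrFun (congrArg WithLp.ofLp h) 2
          simpa using this
      · ext i
        have e := hM (WithLp.toLp 2 ![x0, x1, x2])
        fin_cases i
        · simp only [Fin.zero_eta]
          rw [e.1]
          simpa using h0
        · simp only [Fin.mk_one]
          rw [e.2.1]
          simpa using h1
        · simp only [Fin.reduceFinMk]
          rw [e.2.2]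
          simpa using h2
    by_cases hz0 : z = 0
    · subst hz0
      by_cases hb : b = 0
      · exact key2 0 0 1 (by simp) (by simp) (by simp [hb]) (by simp)
      · by_cases hc : c = 0
        · by_cases hd : a = 0 ∧ d = 0
          · exact key2 1 0 0 (by simp) (by simp [hd]) (by simp) (by simp [hc])
          · exact key2 a (-d) 0 (by simpa using hd) (by ring) (by ring) (by simp [hc])
        · have ha : a = 0 := by
            have : a * b * c = 0 := by rw [← hz]; ring
            simpa [hb, hc] using this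
          exact key2 0 1 0 (by simp) (by simp [ha]) (by simp) (by simp)
    · refine key2 (z ^ 2) (b * c) (c * z) ?_ ?_ (by ring) (by ring)
      · rintro ⟨h, _⟩
        exact hz0 (pow_eq_zero_iff two_ne_zero |>.1 h)
      · linear_combination (-1 : ℂ) * hz

theorem sr_m3 (d a b c : ℂ) {m : Fin 3 → Fin 3 → ℂ}
    (hm : m = fun j k => !![d, a, 0; 0, 0, b; c, 0, 0] j k) :
    (∃ z : ℂ, ‖z‖ = sr (m3 m) ∧ z ^ 2 * (z - d) = a * b * c) ∧
      ∀ z : ℂ, z ^ 2 * (z - d) = a * b * c → ‖z‖ ≤ sr (m3 m) := by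
  constructor
  · obtain ⟨z, hz, h⟩ := c_sr_exists (m3 m)
    exact ⟨z, h, (c_m3_mem_spectrum d a b c z hm).1 hz⟩
  · intro z hz
    exact c_sr_mem_le ((c_m3_mem_spectrum d a b c z hm).2 hz)

theorem cubic_rigid {w : ℂ} {r : ℝ} (hw : ‖w‖ = 1)
    (h1 : (∃ z : ℂ, ‖z‖ = r ∧ z ^ 2 * (z - 1) = 1) ∧ ∀ z : ℂ, z ^ 2 * (z - 1) = 1 → ‖z‖ ≤ r)
    (h2 : ∃ z : ℂ, ‖z‖ = r ∧ z ^ 2 * (z - 1) = w) : w = 1 := by
  obtain ⟨⟨z1, hz1, e1⟩, h1⟩ := h1
  obtain ⟨z2, hz2, e2⟩ := h2
  -- the real root
  obtain ⟨x, hx, hx1⟩ : ∃ x : ℝ, 1 < x ∧ x ^ 2 * (x - 1) = 1 := by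
    have hc : ContinuousOn (fun x : ℝ => x ^ 2 * (x - 1)) (Set.Icc 1 2) := by fun_prop
    have := intermediate_value_Icc (by norm_num : (1 : ℝ) ≤ 2) hc
    obtain ⟨x, hx, hx2⟩ := this (show (1 : ℝ) ∈ Set.Icc _ _ by norm_num)
    refine ⟨x, ?_, hx2⟩
    rcases hx.1.lt_or_eq with h | h
    · exact h
    · rw [← h] at hx2
      norm_num at hx2
  have hxr : x ≤ r := by
    have := h1 (x : ℂ) (by exact_mod_cast hx1)
    rwa [Complex.norm_real, Real.norm_of_nonneg (by linarith)] at this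
  have n1 : r ^ 2 * ‖z1 - 1‖ = 1 := by
    have := congrArg norm e1
    rw [norm_mul, norm_pow, hz1] at this
    simpa using this
  have n2 : r ^ 2 * ‖z2 - 1‖ = 1 := by
    have := congrArg norm e2
    rw [norm_mul, norm_pow, hz2, hw] at this
    exact this
  have t1 : r - 1 ≤ ‖z1 - 1‖ := by
    have := norm_sub_norm_le z1 1
    rw [hz1] at this
    simpa using this
  have hr0 : 0 < r ^ 2 := by nlinarith
  have t2 : r ^ 2 * (r - 1) ≤ 1 := by
    have := mul_le_mul_of_nonneg_left t1 hr0.le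
    rwa [n1] at this
  have t3 : 1 ≤ r ^ 2 * (r - 1) := by
    rw [← hx1]
    have : x ^ 2 ≤ r ^ 2 := by nlinarith
    exact mul_le_mul this (by linarith) (by linarith) hr0.le
  have t4 : r ^ 2 * (r - 1) = 1 := le_antisymm t2 t3
  have t5 : ‖z2 - 1‖ = r - 1 := by
    have : r ^ 2 * ‖z2 - 1‖ = r ^ 2 * (r - 1) := by rw [n2, t4]
    exact mul_left_cancel₀ hr0.ne' this
  have s1 : z2.re ^ 2 + z2.im ^ 2 = r ^ 2 := by
    rw [← hz2, ← Complex.normSq_eq_norm_sq, Complex.normSq_apply]; ring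
  have s2 : (z2.re - 1) ^ 2 + z2.im ^ 2 = (r - 1) ^ 2 := by
    rw [← t5, ← Complex.normSq_eq_norm_sq, Complex.normSq_apply]; simp; ring
  have s3 : z2.re = r := by nlinarith
  have s4 : z2.im = 0 := by
    have : z2.im ^ 2 = 0 := by rw [s3] at s1; linarith
    exact pow_eq_zero_iff (two_ne_zero) |>.1 this
  have s5 : z2 = (r : ℂ) := Complex.ext (by simp [s3]) (by simp [s4])
  rw [← e2, s5]
  exact_mod_cast t4

variable {H : Type*} [NormedAddCommGroup H] [InnerProductSpace ℂ H] [CompleteSpace H]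

/-- a function calculus identity -/
theorem c_normal_identity {T : H →L[ℂ] H} (hT : T * adjoint T = adjoint T * T) (p q r s : ℂ)
    (h : ∀ z ∈ spectrum ℂ T, p + q * z + r * conj z + s * (conj z * z) = 0) :
    p • (1 : H →L[ℂ] H) + q • T + r • adjoint T + s • (adjoint T * T) = 0 := by
  have hn : IsStarNormal T := ⟨by
    rw [ContinuousLinearMap.star_eq_adjoint]
    exact hT.symm⟩
  have estar : cfc (fun z : ℂ => conj z) T = adjoint T := by
    rw [← ContinuousLinearMap.star_eq_adjoint]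
    exact cfc_star_id (R := ℂ) (a := T)
  have e1 : cfc (fun z : ℂ => p + q * z + r * conj z + s * (conj z * z)) T =
      p • (1 : H →L[ℂ] H) + q • T + r • adjoint T + s • (adjoint T * T) := by
    rw [cfc_add (a := T) (fun z : ℂ => p + q * z + r * conj z) (fun z : ℂ => s * (conj z * z)),
      cfc_add (a := T) (fun z : ℂ => p + q * z) (fun z : ℂ => r * conj z),
      cfc_const_add p (fun z : ℂ => q * z) T,
      cfc_const_mul q (fun z : ℂ => z) T, cfc_const_mul r (fun z : ℂ => conj z) T,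
      cfc_const_mul s (fun z : ℂ => conj z * z) T, cfc_mul (fun z : ℂ => conj z) (fun z : ℂ => z) T,
      cfc_id' ℂ T, estar]
    rw [Algebra.algebraMap_eq_smul_one]
  rw [← e1]
  rw [cfc_congr (g := fun _ => (0 : ℂ)) (fun z hz => h z hz)]
  simp

end e11c

end PR
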